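import Pool.Agent.Q146.FAC.Surf

/-!
# The reduction to compact surfaces
-/

set_option autoImplicit false

open Set MeasureTheory Filter Topology Metric

namespace Pool.Agent.Q146.FAC

open Pool.Agent.H115R3.Filling Pool.Agent.Q146.FVC

section
variable {M : Type} [MetricSpace M] {h : M → ℝ}

/-- **the reduction** -/
theorem reduceA {A : ℝ}
    (H : ∀ (M : Type) [MetricSpace M] (S : OrientedSurface M), S.NoShortcut → A ≤ S.area)
    (S : NearSurface M h) (hS : S.NoShortcut) (hh : Height h S.boundary) : A ≤ S.posArea := by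
  obtain ⟨c0, hc0, hc0'⟩ := hh.pos
  have key : ∀ n : ℕ, A ≤ (((n : ℝ) + 2) / (n + 1)) ^ 2 *
      (S.posArea + (1 / ((n : ℝ) + 2)) ^ 2 * S.area) := by
    intro n
    have hn : (0 : ℝ) ≤ n := Nat.cast_nonneg n
    have ht : 0 < c0 / ((n : ℝ) + 2) := by positivity
    have hη : 0 < 1 / ((n : ℝ) + 2) := by positivity
    have hη1 : 1 / ((n : ℝ) + 2) ≤ 1 := by
      rw [div_le_one (by positivity)]; linarith
    have hc : 0 < ((n : ℝ) + 2) / (n + 1) := by positivity
    have htc : c0 / ((n : ℝ) + 2) < c0 := by
      rw [div_lt_iff₀ (by positivity)]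
      nlinarith
    have hcc : ((n : ℝ) + 2) / (n + 1) * (c0 - c0 / ((n : ℝ) + 2)) = c0 := by
      field_simp
      ring
    have h1 := @H _ (colS (lip_sub hh.lip (c0 / ((n : ℝ) + 2))) (((n : ℝ) + 2) / (n + 1)) hc)
      (toOriented S hh.lip ht hη hη1 hc)
      (noShortcut_col S hS hh ht hη hη1 hc hc0' htc hcc)
    exact h1.trans (area_le S hh.lip ht hη hη1 hc)
  have t1 : Tendsto (fun n : ℕ => 1 / ((n : ℝ) + 1)) atTop (𝓝 0) :=
    tendsto_one_div_add_atTop_nhds_zero_nat
  have t2 : Tendsto (fun n : ℕ => 1 / ((n : ℝ) + 2)) atTop (𝓝 0) := by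
    have h1 := t1.comp (tendsto_add_atTop_nat 1)
    refine h1.congr fun n => ?_
    simp only [Function.comp_apply]
    push_cast
    ring
  have t3 : Tendsto (fun n : ℕ => ((n : ℝ) + 2) / (n + 1)) atTop (𝓝 1) := by
    have h1 := t1.const_add 1
    rw [add_zero] at h1
    refine h1.congr fun n => ?_
    have hn : (0 : ℝ) ≤ n := Nat.cast_nonneg n
    field_simp
    ring
  have t4 : Tendsto (fun n : ℕ => (((n : ℝ) + 2) / (n + 1)) ^ 2 *
      (S.posArea + (1 / ((n : ℝ) + 2)) ^ 2 * S.area)) atTop
      (𝓝 (1 ^ 2 * (S.posArea + 0 ^ 2 * S.area))) :=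
    (t3.pow 2).mul (((t2.pow 2).mul_const _).const_add _)
  have h5 := ge_of_tendsto' t4 key
  simpa using h5

end

/-- a closed surface as a surface near the boundary -/
def ofOriented {M : Type} [MetricSpace M] (S : OrientedSurface M) (h : M → ℝ) :
    NearSurface M h where
  faces := S.faces
  chart := S.chart
  metric := S.metric
  dist_le := S.dist_le
  interior := S.interior
  pair := S.pair
  pair_mem := S.pair_mem
  pair_pair := S.pair_pair
  pair_ne := S.pair_ne
  glue := fun s hs => Or.inl (S.glue s hs)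
  arcs := S.arcs
  arcSide := S.arcSide
  arcSide_injective := S.arcSide_injective
  arcSide_range := S.arcSide_range
  brk := S.brk
  brk_strictMono := S.brk_strictMono
  brk_zero := S.brk_zero
  brk_last := S.brk_last
  boundary := S.boundary
  boundary_eq := S.boundary_eq

theorem posArea_le {M : Type} [MetricSpace M] (S : OrientedSurface M) (h : M → ℝ) :
    (ofOriented S h).posArea ≤ S.area := by
  unfold NearSurface.posArea OrientedSurface.area
  refine Finset.sum_le_sum fun i _ => ?_
  refine setIntegral_mono_set ((cont_dens (S.metric i)).integrableOn_compact isCompact_Sq) ?_ ?_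
  · exact Filter.Eventually.of_forall fun p => Real.sqrt_nonneg _
  · exact (inter_subset_left : Sq ∩ {p | 0 < h (S.chart i p)} ⊆ Sq).eventuallyLE

/-- the function `π/2 - dist(q, boundary)` -/
noncomputable def depth {M : Type} [MetricSpace M] (bd : AddCircle (2 * Real.pi) → M) (q : M) : ℝ :=
  Real.pi / 2 - infDist q (range bd)

theorem dist_le_pi (x y : AddCircle (2 * Real.pi)) : dist x y ≤ Real.pi := by
  have h1 := AddCircle.norm_le_half_period (p := 2 * Real.pi) (x := x - y)
    (by positivity)
  rw [dist_eq_norm]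
  rw [abs_of_pos Real.two_pi_pos] at h1
  linarith

theorem height_depth {M : Type} [MetricSpace M] (bd : AddCircle (2 * Real.pi) → M) :
    Height (depth bd) bd where
  lip := by
    refine LipschitzWith.of_dist_le_mul fun p q => ?_
    rw [NNReal.coe_one, one_mul, Real.dist_eq]
    unfold depth
    rw [sub_sub_sub_cancel_left, ← Real.dist_eq, dist_comm p q]
    have h1 := (lipschitz_infDist_pt (range bd)).dist_le_mul q p
    rwa [NNReal.coe_one, one_mul] at h1
  pos := ⟨Real.pi / 2, by positivity, fun x => by
    unfold depth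
    rw [infDist_zero_of_mem (mem_range_self x), sub_zero]⟩
  sum := by
    intro x y
    unfold depth
    rw [infDist_zero_of_mem (mem_range_self x), infDist_zero_of_mem (mem_range_self y)]
    have := dist_le_pi x y
    linarith

end Pool.Agent.Q146.FAC
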