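import Pool.Agent.Q146.FAC.Weight

/-!
# Surfaces near the boundary circle
-/

set_option autoImplicit false

open Set MeasureTheory

namespace Pool.Agent.Q146.FAC

open Pool.Agent.H115R3.Filling Pool.Agent.Q146.FVC

/-- A part of an oriented Riemannian surface `M` (compact or not), consisting of finitely many
parametrised squares, whose boundary contains the circle of length `2π`, as in
`Pool.Agent.H115R3.Filling.OrientedSurface`, with the difference that two paired sides of the squares
either are glued, or both are contained in the set `{h ≤ 0}` (far sides). -/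
structure NearSurface (M : Type) [MetricSpace M] (h : M → ℝ) where
  /-- number of faces -/
  faces : ℕ
  /-- parametrisation of the `i`-th closed face by the unit square -/
  chart : Fin faces → ℝ × ℝ → M
  /-- the Riemannian metric of the `i`-th face, in its parametrisation -/
  metric : Fin faces → RiemMetric
  /-- the distance in `M` is at most the Riemannian length of straight segments in the charts -/
  dist_le : ∀ i, ∀ p ∈ Sq, ∀ q ∈ Sq,
    dist (chart i p) (chart i q) ≤ (metric i).segLength p q
  /-- the sides of the faces that are not boundary edges -/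
  interior : Finset (Fin faces × Fin 4)
  /-- the pairing of these sides -/
  pair : Fin faces × Fin 4 → Fin faces × Fin 4
  pair_mem : ∀ s ∈ interior, pair s ∈ interior
  pair_pair : ∀ s ∈ interior, pair (pair s) = s
  pair_ne : ∀ s ∈ interior, pair s ≠ s
  /-- paired sides are glued in opposite directions (orientability), or both are far -/
  glue : ∀ s ∈ interior,
    (∀ t ∈ Set.Icc (0 : ℝ) 1,
      chart (pair s).1 (side (pair s).2 t) = chart s.1 (side s.2 (1 - t))) ∨
    (∀ t ∈ Set.Icc (0 : ℝ) 1,
      h (chart s.1 (side s.2 t)) ≤ 0 ∧ h (chart (pair s).1 (side (pair s).2 t)) ≤ 0)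
  /-- number of boundary edges -/
  arcs : ℕ
  /-- the side that is the `k`-th boundary edge -/
  arcSide : Fin arcs → Fin faces × Fin 4
  arcSide_injective : Function.Injective arcSide
  /-- the sides that are not in `interior` are exactly the boundary edges -/
  arcSide_range : ∀ s, s ∉ interior ↔ ∃ k, arcSide k = s
  /-- the partition of `[0, 2π]` given by the boundary vertices -/
  brk : Fin (arcs + 1) → ℝ
  brk_strictMono : StrictMono brk
  brk_zero : brk 0 = 0
  brk_last : brk (Fin.last arcs) = 2 * Real.pi
  /-- parametrisation of the boundary by the circle of length `2π` -/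
  boundary : AddCircle (2 * Real.pi) → M
  /-- the `k`-th boundary edge is the arc of the circle between the `k`-th and the `(k+1)`-st
  boundary vertex -/
  boundary_eq : ∀ k : Fin arcs, ∀ u ∈ Set.Icc (0 : ℝ) 1,
    chart (arcSide k).1 (side (arcSide k).2 u) =
      boundary ((brk k.castSucc + u * (brk k.succ - brk k.castSucc) : ℝ) :
        AddCircle (2 * Real.pi))

section
variable {M : Type} [MetricSpace M] {h : M → ℝ}

/-- The boundary circle has no shortcuts. -/
def NearSurface.NoShortcut (S : NearSurface M h) : Prop :=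
  ∀ x y : AddCircle (2 * Real.pi), dist x y ≤ dist (S.boundary x) (S.boundary y)

/-- The area of the set of the points of the faces with `h > 0`. -/
noncomputable def NearSurface.posArea (S : NearSurface M h) : ℝ :=
  ∑ i, ∫ p in Sq ∩ {p | 0 < h (S.chart i p)},
    √((S.metric i).E p * (S.metric i).G p - (S.metric i).F p ^ 2)

/-- the whole area -/
noncomputable def NearSurface.area (S : NearSurface M h) : ℝ := ∑ i, (S.metric i).area

/-- `h` is a `1`-Lipschitz function, positive on the boundary circle, with
`h x + h y ≥ dist x y` for all points `x`, `y` of the circle. -/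
structure Height (h : M → ℝ) (bd : AddCircle (2 * Real.pi) → M) : Prop where
  lip : LipschitzWith 1 h
  pos : ∃ c : ℝ, 0 < c ∧ ∀ x, c ≤ h (bd x)
  sum : ∀ x y : AddCircle (2 * Real.pi), dist x y ≤ h (bd x) + h (bd y)

theorem side_mem (k : Fin 4) {t : ℝ} (ht : t ∈ Icc (0 : ℝ) 1) : side k t ∈ Sq := by
  obtain ⟨h0, h1⟩ := ht
  fin_cases k
  · exact ⟨⟨h0, h1⟩, ⟨le_rfl, zero_le_one⟩⟩
  · exact ⟨⟨zero_le_one, le_rfl⟩, ⟨h0, h1⟩⟩
  · exact ⟨⟨by simp only [side]; linarith, by simp only [side]; linarith⟩, ⟨zero_le_one, le_rfl⟩⟩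
  · exact ⟨⟨le_rfl, zero_le_one⟩, ⟨by simp only [side]; linarith, by simp only [side]; linarith⟩⟩

/-- the factor of the metric -/
noncomputable def fac (t η u : ℝ) : ℝ := max η (min 1 (u / t))

theorem fac_pos {t η u : ℝ} (hη : 0 < η) : 0 < fac t η u := lt_of_lt_of_le hη (le_max_left _ _)

theorem fac_one {t η u : ℝ} (ht : 0 < t) (hη1 : η ≤ 1) (hu : t ≤ u) : fac t η u = 1 := by
  unfold fac
  have h1 : 1 ≤ u / t := by rw [le_div_iff₀ ht]; linarith
  rw [min_eq_left h1, max_eq_right hη1]

theorem fac_le_one {t η u : ℝ} (hη1 : η ≤ 1) : fac t η u ≤ 1 :=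
  max_le hη1 (min_le_left _ _)

theorem fac_neg {t η u : ℝ} (ht : 0 < t) (hη : 0 < η) (hu : u ≤ 0) : fac t η u = η := by
  unfold fac
  have h1 : u / t ≤ 0 := div_nonpos_of_nonpos_of_nonneg hu ht.le
  exact max_eq_left ((min_le_right _ _).trans (h1.trans hη.le))

theorem fac_cont {t η : ℝ} : Continuous (fac t η) := by
  unfold fac
  fun_prop

/-- the scaled metric of the collapsed space -/
@[instance_reducible]
noncomputable def colS (hh : LipschitzWith 1 h) (c : ℝ) (hc : 0 < c) : MetricSpace (Col h) where
  dist := fun x y => c * dC h x y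
  dist_self := fun x => by
    have h1 := (colMetric hh).dist_self x
    change dC h x x = 0 at h1
    rw [h1, mul_zero]
  dist_comm := fun x y => by
    have h1 := (colMetric hh).dist_comm x y
    change dC h x y = dC h y x at h1
    rw [h1]
  dist_triangle := fun x y z => by
    have h1 := dC_triangle hh x y z
    rw [← mul_add]
    exact mul_le_mul_of_nonneg_left h1 hc.le
  eq_of_dist_eq_zero := fun {x y} h0 => by
    have h1 : dC h x y = 0 := by
      rcases mul_eq_zero.1 h0 with h2 | h2
      · exact absurd h2 hc.ne'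
      · exact h2
    exact (colMetric hh).eq_of_dist_eq_zero h1

theorem lip_sub (hh : LipschitzWith 1 h) (t : ℝ) : LipschitzWith 1 (fun q => h q - t) := by
  refine LipschitzWith.of_dist_le_mul fun p q => ?_
  have h1 := hh.dist_le_mul p q
  rw [Real.dist_eq] at h1 ⊢
  rwa [sub_sub_sub_cancel_right]

theorem comp_cont (hh : LipschitzWith 1 h) {g : RiemMetric} {ch : ℝ × ℝ → M}
    (hd : ∀ p ∈ Sq, ∀ q ∈ Sq, dist (ch p) (ch q) ≤ g.segLength p q) :
    ContinuousOn (fun p => h (ch p)) Sq := by
  obtain ⟨C, hC0, hC⟩ := g.exists_bound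
  have hl : LipschitzOnWith (Real.toNNReal C) (fun p => h (ch p)) Sq := by
    apply LipschitzOnWith.of_dist_le_mul
    intro p hp q hq
    rw [Real.coe_toNNReal _ hC0]
    have h3 := hh.dist_le_mul (ch p) (ch q)
    rw [NNReal.coe_one, one_mul] at h3
    refine h3.trans ((hd p hp q hq).trans ?_)
    apply g.segLength_le
    intro r hr0 hr1
    refine (hC _ (seg_mem hp hq hr0 hr1) _).trans (le_of_eq ?_)
    rw [dist_comm, dist_eq_norm]
  exact hl.continuousOn

/-- the closed surface in the collapsed space -/
noncomputable def toOriented (S : NearSurface M h) (hh : LipschitzWith 1 h) {t η c : ℝ}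
    (ht : 0 < t) (hη : 0 < η) (hη1 : η ≤ 1) (hc : 0 < c) :
    @OrientedSurface (Col fun q => h q - t) (colS (lip_sub hh t) c hc) :=
  letI := colS (lip_sub hh t) c hc
  { faces := S.faces
    chart := fun i p => pj (fun q => h q - t) (S.chart i p)
    metric := fun i => wMet (S.metric i) (fun p => c * fac t η (h (S.chart i p)))
      (continuousOn_const.mul (fac_cont.comp_continuousOn (comp_cont hh (S.dist_le i))))
      (fun p _ => mul_pos hc (fac_pos hη))
    dist_le := fun i p hp q hq => by
      refine seg_ineq (lip_sub hh t) (S.dist_le i) hc ?_ hp hq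
      intro r _ hr
      rw [fac_one ht hη1 (by linarith), mul_one]
    interior := S.interior
    pair := S.pair
    pair_mem := S.pair_mem
    pair_pair := S.pair_pair
    pair_ne := S.pair_ne
    glue := fun s hs r hr => by
      rcases S.glue s hs with h1 | h1
      · rw [h1 r hr]
      · have h2 := (h1 r hr).2
        have h3 := (h1 (1 - r) ⟨by linarith [hr.2], by linarith [hr.1]⟩).1
        rw [pj_neg (h := fun q => h q - t) (q := S.chart (S.pair s).1 (side (S.pair s).2 r))
            (by change ¬ 0 < h (S.chart (S.pair s).1 (side (S.pair s).2 r)) - t; linarith),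
          pj_neg (h := fun q => h q - t) (q := S.chart s.1 (side s.2 (1 - r)))
            (by change ¬ 0 < h (S.chart s.1 (side s.2 (1 - r))) - t; linarith)]
    arcs := S.arcs
    arcSide := S.arcSide
    arcSide_injective := S.arcSide_injective
    arcSide_range := S.arcSide_range
    brk := S.brk
    brk_strictMono := S.brk_strictMono
    brk_zero := S.brk_zero
    brk_last := S.brk_last
    boundary := fun x => pj (fun q => h q - t) (S.boundary x)
    boundary_eq := fun k u hu => by rw [S.boundary_eq k u hu] }

theorem noShortcut_col (S : NearSurface M h) (hS : S.NoShortcut) (hh : Height h S.boundary)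
    {t η c c0 : ℝ} (ht : 0 < t) (hη : 0 < η) (hη1 : η ≤ 1) (hc : 0 < c)
    (hc0 : ∀ x, c0 ≤ h (S.boundary x)) (htc : t < c0) (hcc : c * (c0 - t) = c0) :
    @OrientedSurface.NoShortcut (Col fun q => h q - t) (colS (lip_sub hh.lip t) c hc)
      (toOriented S hh.lip ht hη hη1 hc) := by
  intro x y
  change dist x y ≤ c * dC (fun q => h q - t) (pj (fun q => h q - t) (S.boundary x))
    (pj (fun q => h q - t) (S.boundary y))
  have h1 := hS x y
  have h2 := hh.sum x y
  have h3 := hc0 x
  have h4 := hc0 y
  have hd0 : 0 ≤ dist x y := dist_nonneg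
  have hc1 : 1 ≤ c := by
    by_contra hcon
    push Not at hcon
    have : c * (c0 - t) < 1 * c0 := mul_lt_mul'' hcon (by linarith) hc.le (by linarith)
    linarith
  have key : dist x y / c ≤ dC (fun q => h q - t) (pj (fun q => h q - t) (S.boundary x))
      (pj (fun q => h q - t) (S.boundary y)) := by
    refine le_dC_pj _ _ ?_ ?_ (by change 0 < h (S.boundary x) - t; linarith)
      (by change 0 < h (S.boundary y) - t; linarith)
    · rw [div_le_iff₀ hc]
      nlinarith
    · rw [div_le_iff₀ hc]
      -- `(h x - t + (h y - t)) c ≥ h x + h y`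
      have h5 : (h (S.boundary x) - t) * c ≥ h (S.boundary x) := by
        have : (h (S.boundary x) - t) * c - h (S.boundary x) =
            (h (S.boundary x) - c0) * (c - 1) + (c * (c0 - t) - c0) := by ring
        have h6 := mul_nonneg (sub_nonneg.2 h3) (sub_nonneg.2 hc1)
        linarith
      have h6 : (h (S.boundary y) - t) * c ≥ h (S.boundary y) := by
        have : (h (S.boundary y) - t) * c - h (S.boundary y) =
            (h (S.boundary y) - c0) * (c - 1) + (c * (c0 - t) - c0) := by ring
        have h6 := mul_nonneg (sub_nonneg.2 h4) (sub_nonneg.2 hc1)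
        linarith
      nlinarith
  rw [div_le_iff₀ hc] at key
  linarith

theorem cont_dens (g : RiemMetric) :
    ContinuousOn (fun p => √(g.E p * g.G p - g.F p ^ 2)) Sq :=
  ((g.continuousOn_E.mul g.continuousOn_G).sub (g.continuousOn_F.pow 2)).sqrt

/-- the area of the closed surface -/
theorem area_le (S : NearSurface M h) (hh : LipschitzWith 1 h) {t η c : ℝ}
    (ht : 0 < t) (hη : 0 < η) (hη1 : η ≤ 1) (hc : 0 < c) :
    @OrientedSurface.area (Col fun q => h q - t) (colS (lip_sub hh t) c hc)
      (toOriented S hh ht hη hη1 hc) ≤ c ^ 2 * (S.posArea + η ^ 2 * S.area) := by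
  have e : @OrientedSurface.area (Col fun q => h q - t) (colS (lip_sub hh t) c hc)
      (toOriented S hh ht hη hη1 hc) = ∑ i, ∫ p in Sq,
        (c * fac t η (h (S.chart i p))) ^ 2 *
          √((S.metric i).E p * (S.metric i).G p - (S.metric i).F p ^ 2) := by
    unfold OrientedSurface.area
    refine Finset.sum_congr rfl fun i _ => ?_
    exact wMet_area (g := S.metric i) (w := fun p => c * fac t η (h (S.chart i p)))
      (hw := continuousOn_const.mul (fac_cont.comp_continuousOn (comp_cont hh (S.dist_le i))))
      (hp := fun p _ => mul_pos hc (fac_pos hη))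
  rw [e]
  unfold NearSurface.posArea NearSurface.area
  rw [Finset.mul_sum, ← Finset.sum_add_distrib, Finset.mul_sum]
  refine Finset.sum_le_sum fun i _ => ?_
  obtain ⟨f, hf⟩ : ∃ f : ℝ × ℝ → ℝ, f = fun p =>
    √((S.metric i).E p * (S.metric i).G p - (S.metric i).F p ^ 2) := ⟨_, rfl⟩
  have hfc : ContinuousOn f Sq := by rw [hf]; exact cont_dens _
  have hf0 : ∀ p, 0 ≤ f p := fun p => by rw [hf]; exact Real.sqrt_nonneg _
  have hfi : IntegrableOn f Sq := hfc.integrableOn_compact isCompact_Sq
  have huc : ContinuousOn (fun p => h (S.chart i p)) Sq := comp_cont hh (S.dist_le i)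
  have hmeas : MeasurableSet (Sq ∩ {p | 0 < h (S.chart i p)}) := by
    have h1 : IsClosed (Sq ∩ (fun p => h (S.chart i p)) ⁻¹' Iic 0) :=
      huc.preimage_isClosed_of_isClosed isCompact_Sq.isClosed isClosed_Iic
    have e1 : Sq ∩ {p | 0 < h (S.chart i p)} =
        Sq \ (Sq ∩ (fun p => h (S.chart i p)) ⁻¹' Iic 0) := by
      ext p
      simp only [mem_inter_iff, mem_sdiff, mem_preimage, mem_Iic]
      constructor
      · rintro ⟨h2, h3⟩
        exact ⟨h2, fun h4 => absurd h4.2 (not_le.2 h3)⟩
      · rintro ⟨h2, h3⟩
        exact ⟨h2, not_le.1 fun h4 => h3 ⟨h2, h4⟩⟩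
    rw [e1]
    exact measurableSet_Sq.diff h1.measurableSet
  have e2 : (∫ p in Sq ∩ {p | 0 < h (S.chart i p)}, f p) =
      ∫ p in Sq, (Sq ∩ {p | 0 < h (S.chart i p)}).indicator f p := by
    rw [setIntegral_indicator hmeas]
    congr 2
    ext p
    simp only [mem_inter_iff]
    tauto
  have e3 : (S.metric i).area = ∫ p in Sq, f p := by rw [hf]; rfl
  change ∫ p in Sq, (c * fac t η (h (S.chart i p))) ^ 2 *
      √((S.metric i).E p * (S.metric i).G p - (S.metric i).F p ^ 2) ≤ c ^ 2 *
      ((∫ p in Sq ∩ {p | 0 < h (S.chart i p)},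
        √((S.metric i).E p * (S.metric i).G p - (S.metric i).F p ^ 2)) +
        η ^ 2 * (S.metric i).area)
  have e4 : ∀ p, √((S.metric i).E p * (S.metric i).G p - (S.metric i).F p ^ 2) = f p := by
    intro p; rw [hf]
  simp only [e4]
  rw [e2, e3, ← integral_const_mul, ← integral_add, ← integral_const_mul]
  · refine setIntegral_mono_on ?_ ?_ measurableSet_Sq ?_
    · have h1 : ContinuousOn (fun p => (c * fac t η (h (S.chart i p))) ^ 2 * f p) Sq :=
        ((continuousOn_const.mul (fac_cont.comp_continuousOn huc)).pow 2).mul hfc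
      exact h1.integrableOn_compact isCompact_Sq
    · exact (((Integrable.indicator hfi hmeas)).add (hfi.const_mul _)).const_mul _
    · intro p hp
      by_cases hpos : 0 < h (S.chart i p)
      · rw [indicator_of_mem (show p ∈ Sq ∩ {p | 0 < h (S.chart i p)} from ⟨hp, hpos⟩)]
        have h1 : (c * fac t η (h (S.chart i p))) ^ 2 ≤ c ^ 2 := by
          rw [mul_pow]
          have h2 : fac t η (h (S.chart i p)) ^ 2 ≤ 1 :=
            pow_le_one₀ (fac_pos hη).le (fac_le_one hη1)
          have h3 : 0 ≤ c ^ 2 := sq_nonneg c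
          nlinarith
        have h2 := mul_le_mul_of_nonneg_right h1 (hf0 p)
        have h3 : 0 ≤ c ^ 2 * (η ^ 2 * f p) :=
          mul_nonneg (sq_nonneg _) (mul_nonneg (sq_nonneg _) (hf0 p))
        rw [mul_add]
        linarith
      · rw [indicator_of_notMem (fun h4 : p ∈ Sq ∩ {p | 0 < h (S.chart i p)} => hpos h4.2),
          fac_neg ht hη (not_lt.1 hpos)]
        apply le_of_eq
        ring
  · exact (Integrable.indicator hfi hmeas)
  · exact hfi.const_mul _

end

end Pool.Agent.Q146.FAC
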