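import Pool.Agent.H115R3.Filling.Square
import Pool.Agent.Q146.FVC.Space

/-!
# Conformal changes of the metric of a square, and the distance of the collapsed space
-/

set_option autoImplicit false

open Set MeasureTheory intervalIntegral

namespace Pool.Agent.Q146.FAC

open Pool.Agent.H115R3.Filling Pool.Agent.Q146.FVC

/-- the metric `w² g` -/
def wMet (g : RiemMetric) (w : ℝ × ℝ → ℝ) (hw : ContinuousOn w Sq) (hp : ∀ p ∈ Sq, 0 < w p) :
    RiemMetric where
  E := fun p => w p ^ 2 * g.E p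
  F := fun p => w p ^ 2 * g.F p
  G := fun p => w p ^ 2 * g.G p
  continuousOn_E := (hw.pow 2).mul g.continuousOn_E
  continuousOn_F := (hw.pow 2).mul g.continuousOn_F
  continuousOn_G := (hw.pow 2).mul g.continuousOn_G
  pos_E := fun p h => mul_pos (pow_pos (hp p h) 2) (g.pos_E p h)
  pos_det := fun p h => by
    have h1 : w p ^ 2 * g.E p * (w p ^ 2 * g.G p) - (w p ^ 2 * g.F p) ^ 2 =
        w p ^ 4 * (g.E p * g.G p - g.F p ^ 2) := by ring
    rw [h1]
    exact mul_pos (pow_pos (hp p h) 4) (g.pos_det p h)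

variable {g : RiemMetric} {w : ℝ × ℝ → ℝ} {hw : ContinuousOn w Sq} {hp : ∀ p ∈ Sq, 0 < w p}

theorem wMet_norm {p : ℝ × ℝ} (h : p ∈ Sq) (v : ℝ × ℝ) :
    (wMet g w hw hp).norm p v = w p * g.norm p v := by
  unfold RiemMetric.norm wMet
  simp only
  have e : w p ^ 2 * g.E p * v.1 ^ 2 + 2 * (w p ^ 2 * g.F p) * v.1 * v.2 +
      w p ^ 2 * g.G p * v.2 ^ 2 =
      w p ^ 2 * (g.E p * v.1 ^ 2 + 2 * g.F p * v.1 * v.2 + g.G p * v.2 ^ 2) := by ring
  rw [e, Real.sqrt_mul (sq_nonneg _), Real.sqrt_sq (hp p h).le]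

theorem wMet_area : (wMet g w hw hp).area =
    ∫ p in Sq, w p ^ 2 * √(g.E p * g.G p - g.F p ^ 2) := by
  unfold RiemMetric.area wMet
  simp only
  refine setIntegral_congr_fun measurableSet_Sq fun p _ => ?_
  have e : w p ^ 2 * g.E p * (w p ^ 2 * g.G p) - (w p ^ 2 * g.F p) ^ 2 =
      (w p ^ 2) ^ 2 * (g.E p * g.G p - g.F p ^ 2) := by ring
  rw [e, Real.sqrt_mul (sq_nonneg _), Real.sqrt_sq (sq_nonneg _)]

theorem seg_cont (g : RiemMetric) {p q : ℝ × ℝ} (h1 : p ∈ Sq) (h2 : q ∈ Sq) :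
    ContinuousOn (fun t : ℝ => g.norm (p + t • (q - p)) (q - p)) (Icc 0 1) := by
  have hs : ContinuousOn (fun t : ℝ => p + t • (q - p)) (Icc 0 1) := by fun_prop
  have hm : MapsTo (fun t : ℝ => p + t • (q - p)) (Icc 0 1) Sq :=
    fun t ht => seg_mem h1 h2 ht.1 ht.2
  have hE := g.continuousOn_E.comp hs hm
  have hF := g.continuousOn_F.comp hs hm
  have hG := g.continuousOn_G.comp hs hm
  unfold RiemMetric.norm
  refine ContinuousOn.sqrt ?_
  exact ((hE.mul continuousOn_const).add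
    (((continuousOn_const.mul hF).mul continuousOn_const).mul continuousOn_const)).add
    (hG.mul continuousOn_const)

theorem norm_smul' (g : RiemMetric) (p v : ℝ × ℝ) {c : ℝ} (hc : 0 ≤ c) :
    g.norm p (c • v) = c * g.norm p v := by
  unfold RiemMetric.norm
  simp only [Prod.smul_fst, Prod.smul_snd, smul_eq_mul]
  have e : g.E p * (c * v.1) ^ 2 + 2 * g.F p * (c * v.1) * (c * v.2) + g.G p * (c * v.2) ^ 2 =
      c ^ 2 * (g.E p * v.1 ^ 2 + 2 * g.F p * v.1 * v.2 + g.G p * v.2 ^ 2) := by ring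
  rw [e, Real.sqrt_mul (sq_nonneg _), Real.sqrt_sq hc]

/-- the length of a part of a segment -/
theorem segLength_part (g : RiemMetric) (p q : ℝ × ℝ) {a b : ℝ} (hab : a ≤ b) :
    g.segLength (p + a • (q - p)) (p + b • (q - p)) =
      ∫ t in a..b, g.norm (p + t • (q - p)) (q - p) := by
  unfold RiemMetric.segLength
  have e1 : ∀ t : ℝ, g.norm (p + a • (q - p) + t • (p + b • (q - p) - (p + a • (q - p))))
      (p + b • (q - p) - (p + a • (q - p))) =
      (b - a) • g.norm (p + (a + (b - a) * t) • (q - p)) (q - p) := by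
    intro t
    have e2 : p + b • (q - p) - (p + a • (q - p)) = (b - a) • (q - p) := by
      rw [sub_smul]; abel
    have e3 : p + a • (q - p) + t • ((b - a) • (q - p)) = p + (a + (b - a) * t) • (q - p) := by
      rw [add_smul, smul_smul, mul_comm t, add_assoc]
    rw [e2, e3, norm_smul' _ _ _ (by linarith), smul_eq_mul]
  simp only [e1]
  rw [intervalIntegral.integral_smul, intervalIntegral.smul_integral_comp_add_mul
    (fun t => g.norm (p + t • (q - p)) (q - p)) (b - a) a]
  congr 1 <;> ring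

variable {M : Type} [MetricSpace M] {h : M → ℝ}

/-- the distance in the collapsed space is at most the length for the changed metric -/
theorem seg_ineq (hh : LipschitzWith 1 h) {ch : ℝ × ℝ → M}
    (hd : ∀ p ∈ Sq, ∀ q ∈ Sq, dist (ch p) (ch q) ≤ g.segLength p q) {c : ℝ} (hc : 0 < c)
    (hwc : ∀ p ∈ Sq, 0 ≤ h (ch p) → c ≤ w p) {p q : ℝ × ℝ} (h1 : p ∈ Sq) (h2 : q ∈ Sq) :
    c * dC h (pj h (ch p)) (pj h (ch q)) ≤ (wMet g w hw hp).segLength p q := by
  obtain ⟨N, hN⟩ : ∃ N : ℝ → ℝ, N = fun t => g.norm (p + t • (q - p)) (q - p) := ⟨_, rfl⟩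
  obtain ⟨W, hW⟩ : ∃ W : ℝ → ℝ, W = fun t => w (p + t • (q - p)) := ⟨_, rfl⟩
  obtain ⟨u, hu⟩ : ∃ u : ℝ → ℝ, u = fun t => h (ch (p + t • (q - p))) := ⟨_, rfl⟩
  have hm : ∀ t ∈ Icc (0 : ℝ) 1, p + t • (q - p) ∈ Sq := fun t ht => seg_mem h1 h2 ht.1 ht.2
  have hNc : ContinuousOn N (Icc 0 1) := by rw [hN]; exact seg_cont g h1 h2
  have hN0 : ∀ t, 0 ≤ N t := fun t => by rw [hN]; exact Real.sqrt_nonneg _
  have hWc : ContinuousOn W (Icc 0 1) := by
    rw [hW]
    exact hw.comp (by fun_prop) hm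
  have hW0 : ∀ t ∈ Icc (0 : ℝ) 1, 0 < W t := fun t ht => by rw [hW]; exact hp _ (hm t ht)
  have hlen : (wMet g w hw hp).segLength p q = ∫ t in (0 : ℝ)..1, W t * N t := by
    unfold RiemMetric.segLength
    refine integral_congr fun t ht => ?_
    rw [uIcc_of_le zero_le_one] at ht
    rw [wMet_norm (hm t ht), hW, hN]
  have hpart : ∀ a ∈ Icc (0 : ℝ) 1, ∀ b ∈ Icc (0 : ℝ) 1, a ≤ b →
      dist (ch (p + a • (q - p))) (ch (p + b • (q - p))) ≤ ∫ t in a..b, N t := by
    intro a ha b hb hab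
    have h3 := hd _ (hm a ha) _ (hm b hb)
    rw [segLength_part g p q hab] at h3
    rw [hN]; exact h3
  have hint : ∀ a ∈ Icc (0 : ℝ) 1, ∀ b ∈ Icc (0 : ℝ) 1, a ≤ b →
      IntervalIntegrable N volume a b ∧ IntervalIntegrable (fun t => W t * N t) volume a b := by
    intro a ha b hb hab
    have hs : uIcc a b ⊆ Icc 0 1 := by
      rw [uIcc_of_le hab]; exact Icc_subset_Icc ha.1 hb.2
    exact ⟨(hNc.mono hs).intervalIntegrable, ((hWc.mul hNc).mono hs).intervalIntegrable⟩
  -- comparison on a part where `u ≥ 0`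
  have hcomp : ∀ a ∈ Icc (0 : ℝ) 1, ∀ b ∈ Icc (0 : ℝ) 1, a ≤ b →
      (∀ t ∈ Ioo a b, 0 ≤ u t) → c * (∫ t in a..b, N t) ≤ ∫ t in a..b, W t * N t := by
    intro a ha b hb hab hut
    rw [← intervalIntegral.integral_const_mul]
    refine intervalIntegral.integral_mono_on_of_le_Ioo hab ((hint a ha b hb hab).1.const_mul c)
      (hint a ha b hb hab).2 ?_
    intro t ht
    have ht' : t ∈ Icc (0 : ℝ) 1 := ⟨ha.1.trans ht.1.le, ht.2.le.trans hb.2⟩
    refine mul_le_mul_of_nonneg_right ?_ (hN0 t)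
    have h3 := hut t ht
    rw [hu] at h3
    rw [hW]
    exact hwc _ (hm t ht') h3
  have h0m : (0 : ℝ) ∈ Icc (0 : ℝ) 1 := ⟨le_rfl, zero_le_one⟩
  have h1m : (1 : ℝ) ∈ Icc (0 : ℝ) 1 := ⟨zero_le_one, le_rfl⟩
  have e0 : p + (0 : ℝ) • (q - p) = p := by simp
  have e1 : p + (1 : ℝ) • (q - p) = q := by simp
  rw [hlen]
  by_cases hall : ∀ t ∈ Icc (0 : ℝ) 1, 0 < u t
  · have h3 := hcomp 0 h0m 1 h1m zero_le_one fun t ht => (hall t ⟨ht.1.le, ht.2.le⟩).le
    refine le_trans ?_ h3
    refine mul_le_mul_of_nonneg_left ?_ hc.le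
    have h4 := hpart 0 h0m 1 h1m zero_le_one
    rw [e0, e1] at h4
    exact (dC_pj_le hh _ _).trans h4
  · push Not at hall
    have huc : ContinuousOn u (Icc 0 1) := by
      -- `u` is Lipschitz along the segment
      obtain ⟨C, hC0, hC⟩ := g.exists_bound
      have hl : LipschitzOnWith (Real.toNNReal (C * ‖q - p‖)) u (Icc 0 1) := by
        apply LipschitzOnWith.of_dist_le_mul
        intro s hs t ht
        rw [Real.coe_toNNReal _ (by positivity)]
        have h3 := hh.dist_le_mul (ch (p + s • (q - p))) (ch (p + t • (q - p)))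
        rw [NNReal.coe_one, one_mul] at h3
        have h4 : dist (ch (p + s • (q - p))) (ch (p + t • (q - p))) ≤
            C * ‖q - p‖ * dist s t := by
          refine (hd _ (hm s hs) _ (hm t ht)).trans ?_
          apply g.segLength_le
          intro r hr0 hr1
          refine (hC _ (seg_mem (hm s hs) (hm t ht) hr0 hr1) _).trans (le_of_eq ?_)
          have e2 : p + t • (q - p) - (p + s • (q - p)) = (t - s) • (q - p) := by
            rw [sub_smul]; abel
          rw [e2, norm_smul, dist_comm, Real.dist_eq, Real.norm_eq_abs]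
          ring
        rw [hu]
        exact h3.trans h4
      exact hl.continuousOn
    obtain ⟨K, hK⟩ : ∃ K : Set ℝ, K = Icc 0 1 ∩ u ⁻¹' (Iic 0) := ⟨_, rfl⟩
    have hKc : IsCompact K := by
      rw [hK]
      exact isCompact_Icc.of_isClosed_subset
        (huc.preimage_isClosed_of_isClosed isClosed_Icc isClosed_Iic) inter_subset_left
    have hKn : K.Nonempty := by
      obtain ⟨t, ht, ht'⟩ := hall
      exact ⟨t, by rw [hK]; exact ⟨ht, ht'⟩⟩
    obtain ⟨a, haK, ha⟩ := hKc.exists_isLeast hKn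
    obtain ⟨b, hbK, hb⟩ := hKc.exists_isGreatest hKn
    have hab : a ≤ b := ha hbK
    rw [hK] at haK hbK
    obtain ⟨ha01, hua⟩ := haK
    obtain ⟨hb01, hub⟩ := hbK
    rw [mem_preimage, mem_Iic] at hua hub
    have hleft : c * max (u 0) 0 ≤ ∫ t in (0 : ℝ)..a, W t * N t := by
      have h3 := hcomp 0 h0m a ha01 ha01.1 (by
        intro t ht
        by_contra hcon
        have h4 : t ∈ K := by
          rw [hK]
          exact ⟨⟨ht.1.le, ht.2.le.trans ha01.2⟩, (not_le.1 hcon).le⟩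
        exact absurd (ha h4) (not_le.2 ht.2))
      refine le_trans (mul_le_mul_of_nonneg_left ?_ hc.le) h3
      refine max_le ?_ (intervalIntegral.integral_nonneg ha01.1 fun t _ => hN0 t)
      have h4 := hpart 0 h0m a ha01 ha01.1
      have h5 := lip_le hh (ch (p + (0 : ℝ) • (q - p))) (ch (p + a • (q - p)))
      rw [hu] at hua ⊢
      simp only at hua ⊢
      linarith
    have hright : c * max (u 1) 0 ≤ ∫ t in b..(1 : ℝ), W t * N t := by
      have h3 := hcomp b hb01 1 h1m hb01.2 (by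
        intro t ht
        by_contra hcon
        have h4 : t ∈ K := by
          rw [hK]
          exact ⟨⟨hb01.1.trans ht.1.le, ht.2.le⟩, (not_le.1 hcon).le⟩
        exact absurd (hb h4) (not_le.2 ht.1))
      refine le_trans (mul_le_mul_of_nonneg_left ?_ hc.le) h3
      refine max_le ?_ (intervalIntegral.integral_nonneg hb01.2 fun t _ => hN0 t)
      have h4 := hpart b hb01 1 h1m hb01.2
      have h5 := lip_le hh (ch (p + (1 : ℝ) • (q - p))) (ch (p + b • (q - p)))
      rw [dist_comm] at h5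
      rw [hu] at hub ⊢
      simp only at hub ⊢
      linarith
    have hmid : 0 ≤ ∫ t in a..b, W t * N t := by
      refine intervalIntegral.integral_nonneg hab fun t ht => ?_
      exact mul_nonneg (hW0 t ⟨ha01.1.trans ht.1, ht.2.trans hb01.2⟩).le (hN0 t)
    have hsum : ∫ t in (0 : ℝ)..1, W t * N t =
        (∫ t in (0 : ℝ)..a, W t * N t) + (∫ t in a..b, W t * N t) +
          ∫ t in b..(1 : ℝ), W t * N t := by
      rw [integral_add_adjacent_intervals (hint 0 h0m a ha01 ha01.1).2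
        (hint a ha01 b hb01 hab).2, integral_add_adjacent_intervals
        ((hint 0 h0m a ha01 ha01.1).2.trans (hint a ha01 b hb01 hab).2)
        (hint b hb01 1 h1m hb01.2).2]
    have hdC : dC h (pj h (ch p)) (pj h (ch q)) ≤ max (u 0) 0 + max (u 1) 0 := by
      have hu0 : u 0 = h (ch p) := by rw [hu]; simp only; rw [e0]
      have hu1 : u 1 = h (ch q) := by rw [hu]; simp only; rw [e1]
      rw [hu0, hu1]
      have m1 := le_max_left (h (ch p)) 0
      have m2 := le_max_left (h (ch q)) 0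
      have m3 := le_max_right (h (ch p)) 0
      have m4 := le_max_right (h (ch q)) 0
      by_cases k1 : 0 < h (ch p) <;> by_cases k2 : 0 < h (ch q)
      · rw [pj_pos k1, pj_pos k2]
        refine (min_le_right _ _).trans ?_
        linarith
      · rw [pj_pos k1, pj_neg k2]
        change h (ch p) ≤ _
        linarith
      · rw [pj_neg k1, pj_pos k2]
        change h (ch q) ≤ _
        linarith
      · rw [pj_neg k1, pj_neg k2]
        change (0 : ℝ) ≤ _
        linarith
    have h6 := mul_le_mul_of_nonneg_left hdC hc.le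
    rw [mul_add] at h6
    rw [hsum]
    linarith

end Pool.Agent.Q146.FAC
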